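import Pool.Agent.H83.LI.Targets

/-!
# No linear relation between the shifts: the class of the Möbius function (MP_c59857_nt),
definitions
-/

set_option autoImplicit false

namespace Pool.Agent.H78.RC

open Finset Pool.Agent.H18.MR Pool.Agent.H93.DE Pool.Agent.H6.N4D Pool.Agent.H93
  Pool.Agent.H93.ES Pool.Agent.H28.NW Pool.Agent.H87.QP

/-- the mean square of the filtered sequence `∑ c h f (m + q h)`, `h ≤ H`, on the window
`(n, n + T]` -/
noncomputable def FC (f : ℕ → ℂ) (H q T n : ℕ) (c : ℕ → ℂ) : ℝ :=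
  (∑ m ∈ Ioc n (n + T), ‖∑ h ∈ range (H + 1), c h * f (m + q * h)‖ ^ 2) / T

/-- the correlation of `f m conj f (m + q h)` with `q 1_(q | m) - 1` on the window `(n, n + T]` -/
noncomputable def tc (f : ℕ → ℂ) (q T h n : ℕ) : ℂ :=
  (∑ m ∈ Ioc n (n + T), f m * (starRingEnd ℂ) (f (m + q * h)) * ((EB.D q m : ℝ) : ℂ)) / (T : ℂ)

/-- functions bounded by one such that the dilation by a prime `q > D` multiplies them by a
unimodular number, up to the multiples of `q ^ 2` -/
structure Cl (D : ℕ) (f : ℕ → ℂ) : Prop where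
  le : ∀ n, ‖f n‖ ≤ 1
  dil : ∀ q : ℕ, q.Prime → D < q → ∃ u : ℂ, ‖u‖ = 1 ∧ ∀ n, 1 ≤ n → ¬ q ∣ n →
    f (q * n) = u * f n

end Pool.Agent.H78.RC
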