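import Pool.Agent.H78.RC.EBR
import Pool.Agent.H28.NW.LEVB

/-!
# MP_c59857_nt, class of the Möbius function: row EBC

From real functions with values in `[-1, 1]` to complex functions bounded by one: twists by
roots of unity of order a power of two, polarisation for the diagonal.
-/

set_option autoImplicit false

namespace Pool.Agent.H78.RC

open Finset Pool.Agent.H18.MR Pool.Agent.H93.DE Pool.Agent.H6.N4D Pool.Agent.H93
  Pool.Agent.H93.ES Pool.Agent.H28.NW Pool.Agent.H87.QP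

/-! ## The diagonal -/

lemma absD {q : ℕ} (hq : 1 ≤ q) (m : ℕ) : |EB.D q m| ≤ q := by
  have h1 : (1 : ℝ) ≤ q := by exact_mod_cast hq
  unfold EB.D
  split_ifs
  · rw [abs_le]
    constructor <;> linarith
  · rw [abs_le]
    constructor <;> linarith

lemma sumD {q : ℕ} (hq : 1 ≤ q) (n N : ℕ) : |∑ m ∈ Ioc n (n + N), EB.D q m| ≤ q := by
  have h1 := Pool.Agent.H28.NW.LEV.sum_dvd_add q n N
  set s := ∑ m ∈ Ioc n (n + N), (if q ∣ m then 1 else 0) with hs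
  have h2 : ∑ m ∈ Ioc n (n + N), EB.D q m = ((q * s : ℕ) : ℝ) - N := by
    unfold EB.D
    rw [sum_sub_distrib, hs, mul_sum, Nat.cast_sum]
    refine congrArg₂ (fun a b => a - b) (sum_congr rfl fun m _ => ?_) (by simp)
    split_ifs <;> simp
  rw [h2]
  have h3 : q * ((n + N) / q) ≤ n + N := Nat.mul_div_le _ _
  have h4 : n + N < q * ((n + N) / q) + q := by
    have := Nat.lt_mul_div_succ (n + N) (show 0 < q by omega)
    rw [Nat.mul_add, Nat.mul_one] at this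
    exact this
  have h5 : q * (n / q) ≤ n := Nat.mul_div_le _ _
  have h6 : n < q * (n / q) + q := by
    have := Nat.lt_mul_div_succ n (show 0 < q by omega)
    rw [Nat.mul_add, Nat.mul_one] at this
    exact this
  have h7 : q * s + q * (n / q) = q * ((n + N) / q) := by rw [← Nat.mul_add, h1]
  have h8 : q * s ≤ N + q := by omega
  have h9 : N ≤ q * s + q := by omega
  have h8' : ((q * s : ℕ) : ℝ) ≤ N + q := by exact_mod_cast h8
  have h9' : (N : ℝ) ≤ ((q * s : ℕ) : ℝ) + q := by exact_mod_cast h9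
  rw [abs_le]
  constructor <;> linarith

lemma D_add (q m : ℕ) : EB.D q (m + q) = EB.D q m := by
  unfold EB.D
  by_cases h : q ∣ m
  · rw [if_pos h, if_pos (Nat.dvd_add_self_right.2 h)]
  · rw [if_neg h, if_neg (fun h' => h (Nat.dvd_add_self_right.1 h'))]

lemma sum_shift (F : ℕ → ℝ) (n T a : ℕ) :
    ∑ m ∈ Ioc n (n + T), F (m + a) = ∑ m ∈ Ioc (n + a) (n + T + a), F m := by
  refine sum_nbij' (fun m => m + a) (fun m => m - a) ?_ ?_ ?_ ?_ ?_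
  · intro m hm
    rw [mem_Ioc] at hm ⊢
    omega
  · intro m hm
    rw [mem_Ioc] at hm ⊢
    omega
  · intro m _
    simp
  · intro m hm
    rw [mem_Ioc] at hm
    omega
  · intro m _
    rfl

lemma edge {q : ℕ} (hq : 1 ≤ q) (F : ℕ → ℝ) (hF : ∀ n, |F n| ≤ 1) (a : ℕ) :
    |∑ m ∈ Ioc a (a + q), F m * EB.D q m| ≤ (q : ℝ) ^ 2 := by
  refine (abs_sum_le_sum_abs _ _).trans ?_
  calc ∑ m ∈ Ioc a (a + q), |F m * EB.D q m| ≤ ∑ m ∈ Ioc a (a + q), (q : ℝ) :=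
        sum_le_sum fun m _ => by
          rw [abs_mul]
          calc |F m| * |EB.D q m| ≤ 1 * q :=
                mul_le_mul (hF m) (absD hq m) (abs_nonneg _) zero_le_one
            _ = q := one_mul _
    _ = (q : ℝ) ^ 2 := by
        rw [sum_const, Nat.card_Ioc, Nat.add_sub_cancel_left, nsmul_eq_mul, sq]

lemma diag {q T n : ℕ} (hq : 1 ≤ q) (F : ℕ → ℝ) (hF : ∀ n, |F n| ≤ 1) :
    |(∑ m ∈ Ioc n (n + T), F m * EB.D q m) / T| ≤
      2 * |tq (fun m => (1 + F m) / 2) q T 1 n| + |tq F q T 1 n| + 2 * (q : ℝ) ^ 2 / T := by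
  rcases Nat.eq_zero_or_pos T with hT | hT
  · subst hT
    simp only [Nat.cast_zero, div_zero, abs_zero, add_zero]
    positivity
  have hT0 : (0 : ℝ) < T := by exact_mod_cast hT
  set S := ∑ m ∈ Ioc n (n + T), F m * EB.D q m with hS
  set S' := ∑ m ∈ Ioc (n + q) (n + q + T), F m * EB.D q m with hS'
  have hshift : ∑ m ∈ Ioc n (n + T), F (m + q) * EB.D q m = S' := by
    rw [hS', show n + q + T = n + T + q by ring, ← sum_shift (fun m => F m * EB.D q m)]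
    exact sum_congr rfl fun m _ => by rw [D_add]
  have hconv : 4 * (∑ m ∈ Ioc n (n + T), (1 + F m) / 2 * ((1 + F (m + q * 1)) / 2) * EB.D q m) -
      ∑ m ∈ Ioc n (n + T), F m * F (m + q * 1) * EB.D q m =
      ∑ m ∈ Ioc n (n + T), EB.D q m + S + S' := by
    rw [← hshift, hS, mul_sum, ← sum_sub_distrib, ← sum_add_distrib, ← sum_add_distrib]
    refine sum_congr rfl fun m _ => ?_
    rw [mul_one]
    ring
  have hdiff : |S' - S| ≤ 2 * (q : ℝ) ^ 2 := by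
    have e1 := Finset.sum_Ioc_consecutive (fun m => F m * EB.D q m)
      (show n ≤ n + q by omega) (show n + q ≤ n + q + T by omega)
    have e2 := Finset.sum_Ioc_consecutive (fun m => F m * EB.D q m)
      (show n ≤ n + T by omega) (show n + T ≤ n + T + q by omega)
    rw [show n + q + T = n + T + q by ring] at e1
    have e3 : S' - S = ∑ m ∈ Ioc (n + T) (n + T + q), F m * EB.D q m -
        ∑ m ∈ Ioc n (n + q), F m * EB.D q m := by
      rw [hS', hS, show n + q + T = n + T + q by ring]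
      linarith
    rw [e3]
    have e4 := edge hq F hF (n + T)
    have e5 := edge hq F hF n
    calc _ ≤ _ := abs_sub _ _
      _ ≤ 2 * (q : ℝ) ^ 2 := by linarith
  have hD := sumD hq n T
  have hq2 : (q : ℝ) ≤ (q : ℝ) ^ 2 := by
    have : (1 : ℝ) ≤ q := by exact_mod_cast hq
    nlinarith
  set A := ∑ m ∈ Ioc n (n + T), (1 + F m) / 2 * ((1 + F (m + q * 1)) / 2) * EB.D q m with hA
  set B := ∑ m ∈ Ioc n (n + T), F m * F (m + q * 1) * EB.D q m with hB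
  have h2S : |S| ≤ 2 * |A| + |B| + 2 * (q : ℝ) ^ 2 := by
    have e1 : 2 * S = 4 * A - B - (∑ m ∈ Ioc n (n + T), EB.D q m) - (S' - S) := by linarith
    have e2 : |2 * S| ≤ 4 * |A| + |B| + |∑ m ∈ Ioc n (n + T), EB.D q m| + |S' - S| := by
      rw [e1]
      have a1 := abs_sub (4 * A - B - (∑ m ∈ Ioc n (n + T), EB.D q m)) (S' - S)
      have a2 := abs_sub (4 * A - B) (∑ m ∈ Ioc n (n + T), EB.D q m)
      have a3 := abs_sub (4 * A) B
      rw [abs_mul, abs_of_pos (show (0 : ℝ) < 4 by norm_num)] at a3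
      linarith
    rw [abs_mul, abs_of_pos (show (0 : ℝ) < 2 by norm_num)] at e2
    have hB0 := abs_nonneg B
    linarith
  have e3 : tq (fun m => (1 + F m) / 2) q T 1 n = A / T := rfl
  have e4 : tq F q T 1 n = B / T := rfl
  rw [e3, e4, abs_div, abs_div, abs_div, Nat.abs_cast, ← mul_div_assoc, ← add_div, ← add_div]
  exact div_le_div_of_nonneg_right h2S hT0.le

/-! ## The twists -/

lemma tc_re (f : ℕ → ℂ) (q T h n : ℕ) : (tc f q T h n).re =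
    tq (fun m => (f m).re) q T h n + tq (fun m => (f m).im) q T h n := by
  unfold tc tq
  rw [Complex.div_natCast_re, Complex.re_sum, ← add_div, ← sum_add_distrib]
  refine congrArg (fun x => x / (T : ℝ)) (sum_congr rfl fun m _ => ?_)
  simp only [Complex.mul_re, Complex.mul_im, Complex.conj_re, Complex.conj_im, Complex.ofReal_re,
    Complex.ofReal_im]
  ring

lemma tc_tw (f : ℕ → ℂ) {ρ : ℂ} (hρ : ‖ρ‖ = 1) (q T h n : ℕ) :
    tc (fun m => f m * (starRingEnd ℂ) ρ ^ m) q T h n = tc f q T h n * ρ ^ (q * h) := by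
  have h1 : (starRingEnd ℂ) ρ * ρ = 1 := by
    rw [Complex.conj_mul', hρ]
    simp
  unfold tc
  rw [div_mul_eq_mul_div, sum_mul]
  refine congrArg (fun x => x / (T : ℂ)) (sum_congr rfl fun m _ => ?_)
  rw [map_mul, map_pow, Complex.conj_conj]
  have h2 : (starRingEnd ℂ) ρ ^ m * ρ ^ (m + q * h) = ρ ^ (q * h) := by
    rw [pow_add, ← mul_assoc, ← mul_pow, h1, one_pow, one_mul]
  calc f m * (starRingEnd ℂ) ρ ^ m * ((starRingEnd ℂ) (f (m + q * h)) * ρ ^ (m + q * h)) *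
        ((EB.D q m : ℝ) : ℂ)
      = f m * (starRingEnd ℂ) (f (m + q * h)) * ((EB.D q m : ℝ) : ℂ) *
        ((starRingEnd ℂ) ρ ^ m * ρ ^ (m + q * h)) := by ring
    _ = _ := by rw [h2]

lemma exists_root (v : ℕ) : ∃ ρ : ℂ, ‖ρ‖ = 1 ∧ ρ ^ (2 ^ v) = Complex.I := by
  have h0 : 0 < 2 ^ v := by positivity
  obtain ⟨z, hz⟩ := IsAlgClosed.exists_pow_nat_eq Complex.I h0
  refine ⟨z, ?_, hz⟩
  have h1 : ‖z‖ ^ (2 ^ v) = 1 := by
    rw [← norm_pow, hz, Complex.norm_I]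
  exact (pow_eq_one_iff_of_nonneg (norm_nonneg _) h0.ne').1 h1

lemma re_I {k : ℕ} (hk : Odd k) (z : ℂ) : (z * Complex.I ^ k).re ^ 2 = z.im ^ 2 := by
  obtain ⟨m, rfl⟩ := hk
  rw [pow_add, pow_mul, Complex.I_sq, pow_one]
  rcases neg_one_pow_eq_or ℂ m with h | h <;> rw [h] <;> simp

lemma norm_tc {f : ℕ → ℂ} {ρ : ℂ} (hρ : ‖ρ‖ = 1) {v k q : ℕ} (hv : ρ ^ (2 ^ v) = Complex.I)
    (hk : Odd k) (hq : Odd q) (T n : ℕ) : ‖tc f q T (2 ^ v * k) n‖ ^ 2 ≤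
      2 * (tq (fun m => (f m).re) q T (2 ^ v * k) n ^ 2 +
        tq (fun m => (f m).im) q T (2 ^ v * k) n ^ 2 +
        tq (fun m => (f m * (starRingEnd ℂ) ρ ^ m).re) q T (2 ^ v * k) n ^ 2 +
        tq (fun m => (f m * (starRingEnd ℂ) ρ ^ m).im) q T (2 ^ v * k) n ^ 2) := by
  have h1 := tc_re f q T (2 ^ v * k) n
  have h2 := tc_re (fun m => f m * (starRingEnd ℂ) ρ ^ m) q T (2 ^ v * k) n
  rw [tc_tw f hρ] at h2
  have h3 : ρ ^ (q * (2 ^ v * k)) = Complex.I ^ (q * k) := by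
    rw [show q * (2 ^ v * k) = 2 ^ v * (q * k) by ring, pow_mul, hv]
  rw [h3] at h2
  have h4 := re_I (hq.mul hk) (tc f q T (2 ^ v * k) n)
  rw [h2] at h4
  have h5 : ‖tc f q T (2 ^ v * k) n‖ ^ 2 =
      (tc f q T (2 ^ v * k) n).re ^ 2 + (tc f q T (2 ^ v * k) n).im ^ 2 := by
    rw [← Complex.normSq_eq_norm_sq, Complex.normSq_apply]
    ring
  rw [h5, ← h4, h1]
  have e1 := sq_nonneg (tq (fun m => (f m).re) q T (2 ^ v * k) n -
    tq (fun m => (f m).im) q T (2 ^ v * k) n)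
  have e2 := sq_nonneg (tq (fun m => (f m * (starRingEnd ℂ) ρ ^ m).re) q T (2 ^ v * k) n -
    tq (fun m => (f m * (starRingEnd ℂ) ρ ^ m).im) q T (2 ^ v * k) n)
  nlinarith [e1, e2]

/-! ## The levels -/

lemma w_ge {K : ℕ} {w : ℕ → ℕ} (h0 : 1 ≤ w 0) (hw : ∀ j, j + 1 < K → 400 * w j ≤ w (j + 1)) :
    ∀ j < K, w 0 + j ≤ w j := by
  intro j
  induction j with
  | zero => intro _; omega
  | succ j ih =>
    intro hj
    have h1 := ih (by omega)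
    have h2 := hw j hj
    omega

lemma QQ_facts {w q : ℕ} (hw : 400 ≤ w) (hq : q ∈ EB.QQ w) :
    Odd q ∧ q ≤ 2 ^ (w / 200) := by
  unfold EB.QQ at hq
  obtain ⟨h1, h2⟩ := Finset.mem_filter.1 hq
  rw [mem_Ioc] at h1
  refine ⟨h2.odd_of_ne_two ?_, h1.2⟩
  intro h3
  have h4 : 2 ^ 1 ≤ 2 ^ (w / 400) := Nat.pow_le_pow_right (by norm_num) (by omega)
  omega

lemma err {w : ℕ} (hw : 400 ≤ w) : ∑ q ∈ EB.QQ w, 1 / (q : ℝ) *
    (12 * (q : ℝ) ^ 4 / (2 ^ w) ^ 2) ≤ 12 / 2 ^ w := by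
  have h1 : ∀ q ∈ EB.QQ w, 1 / (q : ℝ) * (12 * (q : ℝ) ^ 4 / (2 ^ w) ^ 2) ≤
      12 * ((2 : ℝ) ^ (w / 200)) ^ 3 / (2 ^ w) ^ 2 := by
    intro q hq
    have hq1 : (0 : ℝ) < q := by exact_mod_cast QQ_pos hq
    have hq2 : (q : ℝ) ≤ 2 ^ (w / 200) := by exact_mod_cast (QQ_facts hw hq).2
    have e1 : 1 / (q : ℝ) * (12 * (q : ℝ) ^ 4 / (2 ^ w) ^ 2) = 12 * (q : ℝ) ^ 3 / (2 ^ w) ^ 2 := by
      field_simp
    rw [e1]
    gcongr
  have hcard : ((EB.QQ w).card : ℝ) ≤ 2 ^ (w / 200) := by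
    have : (EB.QQ w).card ≤ 2 ^ (w / 200) := by
      unfold EB.QQ
      refine (card_filter_le _ _).trans ?_
      rw [Nat.card_Ioc]
      exact Nat.sub_le _ _
    exact_mod_cast this
  calc ∑ q ∈ EB.QQ w, 1 / (q : ℝ) * (12 * (q : ℝ) ^ 4 / (2 ^ w) ^ 2)
      ≤ ∑ q ∈ EB.QQ w, 12 * ((2 : ℝ) ^ (w / 200)) ^ 3 / (2 ^ w) ^ 2 := sum_le_sum h1
    _ = (EB.QQ w).card * (12 * ((2 : ℝ) ^ (w / 200)) ^ 3 / (2 ^ w) ^ 2) := by
        rw [sum_const, nsmul_eq_mul]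
    _ ≤ 2 ^ (w / 200) * (12 * ((2 : ℝ) ^ (w / 200)) ^ 3 / (2 ^ w) ^ 2) := by gcongr
    _ = 12 * (2 : ℝ) ^ (4 * (w / 200)) / (2 ^ w) ^ 2 := by
        rw [pow_mul']
        ring
    _ ≤ 12 * (2 : ℝ) ^ w / (2 ^ w) ^ 2 := by
        have : (2 : ℝ) ^ (4 * (w / 200)) ≤ 2 ^ w := pow_le_pow_right₀ (by norm_num) (by omega)
        gcongr
    _ = 12 / 2 ^ w := by
        field_simp

lemma geo (K : ℕ) (w : ℕ → ℕ) (hw : ∀ j < K, w 0 + j ≤ w j) :
    ∑ j ∈ range K, (12 : ℝ) / 2 ^ w j ≤ 24 := by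
  have h1 : ∀ j ∈ range K, (12 : ℝ) / 2 ^ w j ≤ 12 * (1 / 2) ^ j := by
    intro j hj
    have h2 := hw j (mem_range.1 hj)
    have h3 : (2 : ℝ) ^ j ≤ 2 ^ w j := pow_le_pow_right₀ (by norm_num) (by omega)
    calc (12 : ℝ) / 2 ^ w j ≤ 12 / 2 ^ j := by gcongr
      _ = 12 * (1 / 2) ^ j := by
          rw [one_div, inv_pow, div_eq_mul_inv]
  have h4 : ∑ j ∈ range K, ((1 : ℝ) / 2) ^ j ≤ 2 := by
    have h5 : ∀ k : ℕ, ∑ j ∈ range k, ((1 : ℝ) / 2) ^ j = 2 - 2 * (1 / 2) ^ k := by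
      intro k
      induction k with
      | zero => simp
      | succ k ih => rw [sum_range_succ, ih, pow_succ]; ring
    rw [h5]
    have : (0 : ℝ) ≤ 2 * (1 / 2) ^ K := by positivity
    linarith
  calc _ ≤ ∑ j ∈ range K, 12 * ((1 : ℝ) / 2) ^ j := sum_le_sum h1
    _ = 12 * ∑ j ∈ range K, ((1 : ℝ) / 2) ^ j := by rw [mul_sum]
    _ ≤ 24 := by linarith

/-- the case `h = 0` -/
theorem ebc_zero (hE : T_EBR) : ∃ (C : ℝ) (w₀ : ℕ), 0 < C ∧ ∀ (K : ℕ) (w : ℕ → ℕ),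
    w₀ ≤ w 0 → (∀ j, j + 1 < K → 400 * w j ≤ w (j + 1)) → ∃ X₀ : ℝ, ∀ (X : Wn) (f : ℕ → ℂ),
    X₀ ≤ X.L → (∀ n, ‖f n‖ ≤ 1) →
    ∑ j ∈ range K, wlg X (fun n => ∑ q ∈ EB.QQ (w j), 1 / (q : ℝ) *
      ‖tc f q (2 ^ w j) 0 n‖ ^ 2) ≤ C * X.L := by
  obtain ⟨C, w₀, hC, H⟩ := hE 1 le_rfl
  refine ⟨15 * C + 48, max w₀ 400, by positivity, fun K w hw hw2 => ?_⟩
  obtain ⟨X₀, H⟩ := H K w (le_trans (le_max_left _ _) hw) hw2
  have hw400 : 400 ≤ w 0 := le_trans (le_max_right _ _) hw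
  have hwj := w_ge (by omega) hw2
  refine ⟨max X₀ 1, fun X f hX hf => ?_⟩
  have hX1 : 1 ≤ X.L := le_trans (le_max_right _ _) hX
  have hX0 : X₀ ≤ X.L := le_trans (le_max_left _ _) hX
  set F : ℕ → ℝ := fun n => ‖f n‖ ^ 2 with hF
  have hF0 : ∀ n, 0 ≤ F n := fun n => by positivity
  have hF1 : ∀ n, F n ≤ 1 := fun n => pow_le_one₀ (norm_nonneg _) (hf n)
  have hFa : ∀ n, |F n| ≤ 1 := fun n => abs_le.2 ⟨by linarith [hF0 n], hF1 n⟩
  have hG : ∀ n, |(1 + F n) / 2| ≤ 1 := fun n =>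
    abs_le.2 ⟨by linarith [hF0 n], by linarith [hF1 n]⟩
  have H1 := H X F hX0 hFa
  have H2 := H X (fun n => (1 + F n) / 2) hX0 hG
  have htc : ∀ q T n, ‖tc f q T 0 n‖ = |(∑ m ∈ Ioc n (n + T), F m * EB.D q m) / T| := by
    intro q T n
    have : tc f q T 0 n = (((∑ m ∈ Ioc n (n + T), F m * EB.D q m) / T : ℝ) : ℂ) := by
      unfold tc
      rw [Complex.ofReal_div, Complex.ofReal_sum, Complex.ofReal_natCast]
      refine congrArg (fun x => x / (T : ℂ)) (sum_congr rfl fun m _ => ?_)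
      rw [mul_zero, add_zero, Complex.mul_conj', Complex.ofReal_mul]
      simp [hF]
    rw [this, Complex.norm_real, Real.norm_eq_abs]
  have key : ∀ j ∈ range K, wlg X (fun n => ∑ q ∈ EB.QQ (w j), 1 / (q : ℝ) *
      ‖tc f q (2 ^ w j) 0 n‖ ^ 2) ≤
      12 * wlg X (fun n => ∑ q ∈ EB.QQ (w j), 1 / (q : ℝ) *
        tq (fun n => (1 + F n) / 2) q (2 ^ w j) 1 n ^ 2) +
      3 * wlg X (fun n => ∑ q ∈ EB.QQ (w j), 1 / (q : ℝ) * tq F q (2 ^ w j) 1 n ^ 2) +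
      12 / 2 ^ w j * (1 + X.L) := by
    intro j hj
    have hj400 : 400 ≤ w j := by
      have := hwj j (mem_range.1 hj)
      omega
    have e1 : 12 / 2 ^ w j * wlg X (fun _ => (1 : ℝ)) ≤ 12 / 2 ^ w j * (1 + X.L) :=
      mul_le_mul_of_nonneg_left (wlg_one_le X) (by positivity)
    refine le_trans ?_ (add_le_add_right e1 _)
    rw [← wlg_mul, ← wlg_mul, ← wlg_mul, ← wlg_add, ← wlg_add]
    refine wlg_mono fun n _ => ?_
    have e2 := err hj400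
    rw [mul_one, mul_sum, mul_sum]
    refine le_trans ?_ (add_le_add_right e2 _)
    rw [← sum_add_distrib, ← sum_add_distrib]
    refine sum_le_sum fun q hq => ?_
    have hq1 := QQ_pos hq
    have hd := diag (T := 2 ^ w j) (n := n) hq1 F hFa
    rw [htc]
    have e3 : ((2 ^ w j : ℕ) : ℝ) = 2 ^ w j := by push_cast; rfl
    rw [e3] at hd ⊢
    set a := |(∑ m ∈ Ioc n (n + 2 ^ w j), F m * EB.D q m) / (2 : ℝ) ^ w j| with ha
    set b := tq (fun m => (1 + F m) / 2) q (2 ^ w j) 1 n with hb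
    set d := tq F q (2 ^ w j) 1 n with hd'
    set e := 2 * (q : ℝ) ^ 2 / 2 ^ w j with he
    have ha0 : 0 ≤ a := abs_nonneg _
    have he0 : 0 ≤ e := by positivity
    have e4 : a ^ 2 ≤ (2 * |b| + |d| + e) ^ 2 := by
      exact pow_le_pow_left₀ ha0 hd 2
    have e5 : a ^ 2 ≤ 12 * b ^ 2 + 3 * d ^ 2 + 3 * e ^ 2 := by
      refine e4.trans ?_
      have s1 := sq_abs b
      have s2 := sq_abs d
      rw [← s1, ← s2]
      nlinarith [sq_nonneg (2 * |b| - |d|), sq_nonneg (2 * |b| - e), sq_nonneg (|d| - e)]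
    have e6 : 3 * e ^ 2 = 12 * (q : ℝ) ^ 4 / (2 ^ w j) ^ 2 := by
      rw [he, div_pow]
      ring
    rw [e6] at e5
    have hq0 : (0 : ℝ) ≤ 1 / (q : ℝ) := by positivity
    calc 1 / (q : ℝ) * a ^ 2 ≤ 1 / (q : ℝ) * (12 * b ^ 2 + 3 * d ^ 2 +
          12 * (q : ℝ) ^ 4 / (2 ^ w j) ^ 2) := mul_le_mul_of_nonneg_left e5 hq0
      _ = _ := by ring
  have hgeo := geo K w hwj
  calc _ ≤ ∑ j ∈ range K, (12 * wlg X (fun n => ∑ q ∈ EB.QQ (w j), 1 / (q : ℝ) *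
        tq (fun n => (1 + F n) / 2) q (2 ^ w j) 1 n ^ 2) +
      3 * wlg X (fun n => ∑ q ∈ EB.QQ (w j), 1 / (q : ℝ) * tq F q (2 ^ w j) 1 n ^ 2) +
      12 / 2 ^ w j * (1 + X.L)) := sum_le_sum key
    _ = 12 * (∑ j ∈ range K, wlg X (fun n => ∑ q ∈ EB.QQ (w j), 1 / (q : ℝ) *
        tq (fun n => (1 + F n) / 2) q (2 ^ w j) 1 n ^ 2)) +
      3 * (∑ j ∈ range K, wlg X (fun n => ∑ q ∈ EB.QQ (w j), 1 / (q : ℝ) *
        tq F q (2 ^ w j) 1 n ^ 2)) + (∑ j ∈ range K, (12 : ℝ) / 2 ^ w j) * (1 + X.L) := by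
        rw [sum_add_distrib, sum_add_distrib, mul_sum, mul_sum, sum_mul]
    _ ≤ 12 * (C * X.L) + 3 * (C * X.L) + 24 * (1 + X.L) := by
        gcongr
    _ ≤ (15 * C + 48) * X.L := by nlinarith

theorem pf_EBC (hE : T_EBR) : T_EBC := by
  intro h
  rcases Nat.eq_zero_or_pos h with h0 | h0
  · subst h0
    exact ebc_zero hE
  obtain ⟨C, w₀, hC, H⟩ := hE h h0
  obtain ⟨v, k, hk, hvk⟩ := Nat.exists_eq_two_pow_mul_odd (n := h) (by omega)
  obtain ⟨ρ, hρ, hρv⟩ := exists_root v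
  refine ⟨8 * C, max w₀ 400, by positivity, fun K w hw hw2 => ?_⟩
  obtain ⟨X₀, H⟩ := H K w (le_trans (le_max_left _ _) hw) hw2
  have hw400 : 400 ≤ w 0 := le_trans (le_max_right _ _) hw
  have hwj := w_ge (by omega) hw2
  refine ⟨X₀, fun X f hX hf => ?_⟩
  have hg : ∀ n, ‖f n * (starRingEnd ℂ) ρ ^ n‖ ≤ 1 := by
    intro n
    rw [norm_mul, norm_pow, Complex.norm_conj, hρ, one_pow, mul_one]
    exact hf n
  have b1 := H X (fun m => (f m).re) hX (fun n => (Complex.abs_re_le_norm _).trans (hf n))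
  have b2 := H X (fun m => (f m).im) hX (fun n => (Complex.abs_im_le_norm _).trans (hf n))
  have b3 := H X (fun m => (f m * (starRingEnd ℂ) ρ ^ m).re) hX
    (fun n => (Complex.abs_re_le_norm _).trans (hg n))
  have b4 := H X (fun m => (f m * (starRingEnd ℂ) ρ ^ m).im) hX
    (fun n => (Complex.abs_im_le_norm _).trans (hg n))
  have key : ∀ j ∈ range K, wlg X (fun n => ∑ q ∈ EB.QQ (w j), 1 / (q : ℝ) *
      ‖tc f q (2 ^ w j) h n‖ ^ 2) ≤
      2 * (wlg X (fun n => ∑ q ∈ EB.QQ (w j), 1 / (q : ℝ) *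
          tq (fun m => (f m).re) q (2 ^ w j) h n ^ 2) +
        wlg X (fun n => ∑ q ∈ EB.QQ (w j), 1 / (q : ℝ) *
          tq (fun m => (f m).im) q (2 ^ w j) h n ^ 2) +
        wlg X (fun n => ∑ q ∈ EB.QQ (w j), 1 / (q : ℝ) *
          tq (fun m => (f m * (starRingEnd ℂ) ρ ^ m).re) q (2 ^ w j) h n ^ 2) +
        wlg X (fun n => ∑ q ∈ EB.QQ (w j), 1 / (q : ℝ) *
          tq (fun m => (f m * (starRingEnd ℂ) ρ ^ m).im) q (2 ^ w j) h n ^ 2)) := by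
    intro j hj
    have hj400 : 400 ≤ w j := by
      have := hwj j (mem_range.1 hj)
      omega
    rw [← wlg_add, ← wlg_add, ← wlg_add, ← wlg_mul]
    refine wlg_mono fun n _ => ?_
    rw [← sum_add_distrib, ← sum_add_distrib, ← sum_add_distrib, mul_sum]
    refine sum_le_sum fun q hq => ?_
    have h1 := norm_tc (f := f) hρ hρv hk (QQ_facts hj400 hq).1 (2 ^ w j) n
    rw [← hvk] at h1
    have hq0 : (0 : ℝ) ≤ 1 / (q : ℝ) := by positivity
    calc _ ≤ _ := mul_le_mul_of_nonneg_left h1 hq0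
      _ = _ := by ring
  calc _ ≤ _ := sum_le_sum key
    _ = 2 * (∑ j ∈ range K, wlg X (fun n => ∑ q ∈ EB.QQ (w j), 1 / (q : ℝ) *
          tq (fun m => (f m).re) q (2 ^ w j) h n ^ 2) +
        ∑ j ∈ range K, wlg X (fun n => ∑ q ∈ EB.QQ (w j), 1 / (q : ℝ) *
          tq (fun m => (f m).im) q (2 ^ w j) h n ^ 2) +
        ∑ j ∈ range K, wlg X (fun n => ∑ q ∈ EB.QQ (w j), 1 / (q : ℝ) *
          tq (fun m => (f m * (starRingEnd ℂ) ρ ^ m).re) q (2 ^ w j) h n ^ 2) +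
        ∑ j ∈ range K, wlg X (fun n => ∑ q ∈ EB.QQ (w j), 1 / (q : ℝ) *
          tq (fun m => (f m * (starRingEnd ℂ) ρ ^ m).im) q (2 ^ w j) h n ^ 2)) := by
        rw [← mul_sum, sum_add_distrib, sum_add_distrib, sum_add_distrib]
    _ ≤ 2 * (C * X.L + C * X.L + C * X.L + C * X.L) := by
        gcongr
    _ = 8 * C * X.L := by ring

end Pool.Agent.H78.RC
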