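import Pool.Agent.H78.RC.Targets

/-!
# MP_c59857_nt, class of the Möbius function: row EBR

The left side of the inequality for all levels is convex in every value of the function.
-/

set_option autoImplicit false

namespace Pool.Agent.H78.RC

open Finset Pool.Agent.H18.MR Pool.Agent.H93.DE Pool.Agent.H6.N4D Pool.Agent.H93
  Pool.Agent.H93.ES Pool.Agent.H28.NW Pool.Agent.H87.QP

/-- A function which is convex in every coordinate is at most its value at a vertex. -/
lemma cube (F : (ℕ → ℝ) → ℝ)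
    (hF : ∀ (f : ℕ → ℝ) (k : ℕ), |f k| ≤ 1 →
      F f ≤ (1 + f k) / 2 * F (Function.update f k 1) +
        (1 - f k) / 2 * F (Function.update f k (-1)))
    (S : Finset ℕ) (f : ℕ → ℝ) (hf : ∀ n, |f n| ≤ 1) :
    ∃ s : ℕ → ℝ, (∀ n ∈ S, s n = 1 ∨ s n = -1) ∧ (∀ n, |s n| ≤ 1) ∧ F f ≤ F s := by
  induction S using Finset.induction_on with
  | empty => exact ⟨f, by simp, hf, le_refl _⟩
  | insert k S hk ih =>
    obtain ⟨s, h1, h2, h3⟩ := ih
    have hk2 := abs_le.1 (h2 k)
    have hmax : F s ≤ max (F (Function.update s k 1)) (F (Function.update s k (-1))) := by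
      refine (hF s k (h2 k)).trans ?_
      have ha : F (Function.update s k 1) ≤
          max (F (Function.update s k 1)) (F (Function.update s k (-1))) := le_max_left _ _
      have hb : F (Function.update s k (-1)) ≤
          max (F (Function.update s k 1)) (F (Function.update s k (-1))) := le_max_right _ _
      have h4 : 0 ≤ (1 + s k) / 2 := by linarith
      have h5 : 0 ≤ (1 - s k) / 2 := by linarith
      calc _ ≤ (1 + s k) / 2 *
            max (F (Function.update s k 1)) (F (Function.update s k (-1))) +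
            (1 - s k) / 2 *
            max (F (Function.update s k 1)) (F (Function.update s k (-1))) := by
            gcongr
        _ = _ := by ring
    have key : ∀ e : ℝ, (e = 1 ∨ e = -1) → F s ≤ F (Function.update s k e) →
        ∃ s : ℕ → ℝ, (∀ n ∈ insert k S, s n = 1 ∨ s n = -1) ∧ (∀ n, |s n| ≤ 1) ∧ F f ≤ F s := by
      intro e he hle
      refine ⟨Function.update s k e, ?_, ?_, h3.trans hle⟩
      · intro n hn
        by_cases hnk : n = k
        · subst hnk
          rw [Function.update_self]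
          exact he
        · rw [Function.update_of_ne hnk]
          exact h1 n ((Finset.mem_insert.1 hn).resolve_left hnk)
      · intro n
        by_cases hnk : n = k
        · subst hnk
          rw [Function.update_self]
          rcases he with he | he <;> rw [he] <;> simp
        · rw [Function.update_of_ne hnk]
          exact h2 n
    rcases le_max_iff.1 hmax with h | h
    · exact key 1 (Or.inl rfl) h
    · exact key (-1) (Or.inr rfl) h

lemma upd_mul (f : ℕ → ℝ) (k m a : ℕ) (ha : 1 ≤ a) : f m * f (m + a) =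
    (1 + f k) / 2 * (Function.update f k 1 m * Function.update f k 1 (m + a)) +
      (1 - f k) / 2 * (Function.update f k (-1) m * Function.update f k (-1) (m + a)) := by
  by_cases h1 : m = k
  · subst h1
    have h2 : m + a ≠ m := by omega
    rw [Function.update_self, Function.update_self, Function.update_of_ne h2,
      Function.update_of_ne h2]
    ring
  · by_cases h2 : m + a = k
    · rw [h2, Function.update_self, Function.update_self, Function.update_of_ne h1,
        Function.update_of_ne h1]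
      ring
    · rw [Function.update_of_ne h1, Function.update_of_ne h1, Function.update_of_ne h2,
        Function.update_of_ne h2]
      ring

lemma tq_upd (f : ℕ → ℝ) (k q T h n : ℕ) (ha : 1 ≤ q * h) : tq f q T h n =
    (1 + f k) / 2 * tq (Function.update f k 1) q T h n +
      (1 - f k) / 2 * tq (Function.update f k (-1)) q T h n := by
  unfold tq
  rw [← mul_div_assoc, ← mul_div_assoc, ← add_div, mul_sum, mul_sum, ← sum_add_distrib]
  refine congrArg (fun x => x / (T : ℝ)) (sum_congr rfl fun m _ => ?_)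
  rw [upd_mul f k m (q * h) ha]
  ring

lemma sq_conv {t x y : ℝ} (ht : |t| ≤ 1) :
    ((1 + t) / 2 * x + (1 - t) / 2 * y) ^ 2 ≤ (1 + t) / 2 * x ^ 2 + (1 - t) / 2 * y ^ 2 := by
  have h := abs_le.1 ht
  have h1 : 0 ≤ (1 + t) / 2 * ((1 - t) / 2) * (x - y) ^ 2 :=
    mul_nonneg (mul_nonneg (by linarith) (by linarith)) (sq_nonneg _)
  nlinarith [h1]

/-- the left side of the inequality -/
noncomputable def lhs (X : Wn) (K h : ℕ) (w : ℕ → ℕ) (f : ℕ → ℝ) : ℝ :=
  ∑ j ∈ range K, wlg X (fun n => ∑ q ∈ EB.QQ (w j), 1 / (q : ℝ) * tq f q (2 ^ w j) h n ^ 2)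

lemma QQ_pos {w q : ℕ} (hq : q ∈ EB.QQ w) : 1 ≤ q := by
  unfold EB.QQ at hq
  exact (Finset.mem_filter.1 hq).2.one_lt.le

lemma lhs_upd (X : Wn) (K h : ℕ) (w : ℕ → ℕ) (hh : 1 ≤ h) (f : ℕ → ℝ) (k : ℕ)
    (hk : |f k| ≤ 1) : lhs X K h w f ≤ (1 + f k) / 2 * lhs X K h w (Function.update f k 1) +
      (1 - f k) / 2 * lhs X K h w (Function.update f k (-1)) := by
  unfold lhs
  rw [mul_sum, mul_sum, ← sum_add_distrib]
  refine sum_le_sum fun j _ => ?_
  rw [← wlg_mul, ← wlg_mul, ← wlg_add]
  refine wlg_mono fun n _ => ?_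
  rw [mul_sum, mul_sum, ← sum_add_distrib]
  refine sum_le_sum fun q hq => ?_
  have h1 : 1 ≤ q * h := Nat.one_le_iff_ne_zero.2
    (Nat.mul_ne_zero (by have := QQ_pos hq; omega) (by omega))
  have h2 : (0 : ℝ) ≤ 1 / (q : ℝ) := by positivity
  calc 1 / (q : ℝ) * tq f q (2 ^ w j) h n ^ 2
      = 1 / (q : ℝ) * ((1 + f k) / 2 * tq (Function.update f k 1) q (2 ^ w j) h n +
        (1 - f k) / 2 * tq (Function.update f k (-1)) q (2 ^ w j) h n) ^ 2 := by
        rw [← tq_upd f k q (2 ^ w j) h n h1]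
    _ ≤ 1 / (q : ℝ) * ((1 + f k) / 2 * tq (Function.update f k 1) q (2 ^ w j) h n ^ 2 +
        (1 - f k) / 2 * tq (Function.update f k (-1)) q (2 ^ w j) h n ^ 2) :=
        mul_le_mul_of_nonneg_left (sq_conv hk) h2
    _ = _ := by ring

lemma tq_congr {f g : ℕ → ℝ} {M q T h n : ℕ} (hfg : ∀ m, m ≤ M → f m = g m)
    (hM : n + T + q * h ≤ M) : tq f q T h n = tq g q T h n := by
  unfold tq
  refine congrArg (fun x => x / (T : ℝ)) (sum_congr rfl fun m hm => ?_)
  have h1 := (mem_Ioc.1 hm).2
  rw [hfg m (by omega), hfg (m + q * h) (by omega)]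

lemma lhs_congr (X : Wn) (K h : ℕ) (w : ℕ → ℕ) {f g : ℕ → ℝ} {M : ℕ}
    (hfg : ∀ m, m ≤ M → f m = g m)
    (hM : ∀ j < K, X.hi + 2 ^ w j + 2 ^ (w j / 200) * h ≤ M) :
    lhs X K h w f = lhs X K h w g := by
  unfold lhs
  refine sum_congr rfl fun j hj => ?_
  unfold wlg
  refine sum_congr rfl fun n hn => ?_
  refine congrArg (fun x => x / (n : ℝ)) (sum_congr rfl fun q hq => ?_)
  have h1 := (mem_Icc.1 hn).2
  have h2 : q ≤ 2 ^ (w j / 200) := by
    unfold EB.QQ at hq
    exact (mem_Ioc.1 (Finset.mem_filter.1 hq).1).2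
  have h3 : q * h ≤ 2 ^ (w j / 200) * h := Nat.mul_le_mul_right _ h2
  have h4 := hM j (mem_range.1 hj)
  rw [tq_congr hfg (by omega)]

theorem pf_EBR (hE : T_EBH) : T_EBR := by
  intro h hh
  obtain ⟨C, w₀, hC, H⟩ := hE h
  refine ⟨C, w₀, hC, fun K w hw hw2 => ?_⟩
  obtain ⟨X₀, H⟩ := H K w hw hw2
  refine ⟨X₀, fun X f hX hf => ?_⟩
  set M := X.hi + ∑ j ∈ range K, (2 ^ w j + 2 ^ (w j / 200) * h) with hM
  have hMj : ∀ j < K, X.hi + 2 ^ w j + 2 ^ (w j / 200) * h ≤ M := by
    intro j hj
    have h1 : 2 ^ w j + 2 ^ (w j / 200) * h ≤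
        ∑ j ∈ range K, (2 ^ w j + 2 ^ (w j / 200) * h) :=
      single_le_sum (f := fun j => 2 ^ w j + 2 ^ (w j / 200) * h) (fun i _ => Nat.zero_le _)
        (mem_range.2 hj)
    omega
  obtain ⟨s, h1, _, h3⟩ := cube (lhs X K h w) (fun g k hg => lhs_upd X K h w hh g k hg)
    (range (M + 1)) f hf
  have h4 : lhs X K h w s = lhs X K h w (fun n => if n ≤ M then s n else 1) :=
    lhs_congr X K h w (M := M) (fun m hm => by simp [hm]) hMj
  have h5 := H X (fun n => if n ≤ M then s n else 1) hX (fun n _ => by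
    by_cases hn : n ≤ M
    · simp only [hn, if_true]
      exact h1 n (mem_range.2 (by omega))
    · simp [hn])
  change lhs X K h w f ≤ C * X.L
  refine h3.trans (h4.le.trans h5)

end Pool.Agent.H78.RC
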