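import Pool.Agent.H78.RC.Defs

/-!
# No linear relation between the shifts: the class of the Möbius function (MP_c59857_nt),
statements

All logarithmic means are taken over a window `X : Wn`. The filters are chosen after the window.
-/

set_option autoImplicit false

namespace Pool.Agent.H78.RC

open Finset Pool.Agent.H18.MR Pool.Agent.H93.DE Pool.Agent.H6.N4D Pool.Agent.H93
  Pool.Agent.H93.ES Pool.Agent.H28.NW Pool.Agent.H87.QP Pool.Agent.H83.LI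

/-- EBR. All levels, logarithmic means, all functions with values in `[-1, 1]`. -/
def T_EBR : Prop := ∀ h : ℕ, 1 ≤ h → ∃ (C : ℝ) (w₀ : ℕ), 0 < C ∧ ∀ (K : ℕ) (w : ℕ → ℕ),
  w₀ ≤ w 0 → (∀ j, j + 1 < K → 400 * w j ≤ w (j + 1)) → ∃ X₀ : ℝ, ∀ (X : Wn) (f : ℕ → ℝ),
  X₀ ≤ X.L → (∀ n, |f n| ≤ 1) →
  ∑ j ∈ range K, wlg X (fun n => ∑ q ∈ EB.QQ (w j), 1 / (q : ℝ) *
    tq f q (2 ^ w j) h n ^ 2) ≤ C * X.L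

/-- EBC. All levels, logarithmic means, all complex functions bounded by one. -/
def T_EBC : Prop := ∀ h : ℕ, ∃ (C : ℝ) (w₀ : ℕ), 0 < C ∧ ∀ (K : ℕ) (w : ℕ → ℕ),
  w₀ ≤ w 0 → (∀ j, j + 1 < K → 400 * w j ≤ w (j + 1)) → ∃ X₀ : ℝ, ∀ (X : Wn) (f : ℕ → ℂ),
  X₀ ≤ X.L → (∀ n, ‖f n‖ ≤ 1) →
  ∑ j ∈ range K, wlg X (fun n => ∑ q ∈ EB.QQ (w j), 1 / (q : ℝ) *
    ‖tc f q (2 ^ w j) h n‖ ^ 2) ≤ C * X.L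

/-- GLC. A good level between two bounds. -/
def T_GLC : Prop := ∀ (H W₀ : ℕ) (ε : ℝ), 0 < ε → ∃ (W₁ : ℕ) (X₀ : ℝ), ∀ (X : Wn)
  (f : ℕ → ℂ), X₀ ≤ X.L → (∀ n, ‖f n‖ ≤ 1) →
  ∃ w, W₀ ≤ w ∧ w ≤ W₁ ∧ ∑ h ∈ range (H + 1), wlg X (fun n => ∑ q ∈ EB.QQ w, 1 / (q : ℝ) *
    ‖tc f q (2 ^ w) h n‖ ^ 2) ≤ ε * X.L

/-- DLC. Dilation: the multiples of `q`, filters. -/
def T_DLC : Prop := ∀ H : ℕ, ∃ C : ℝ, 0 < C ∧ ∀ (D : ℕ) (f : ℕ → ℂ) (q T n : ℕ) (c : ℕ → ℂ),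
  Cl D f → q.Prime → D < q → q ≤ T → (∀ h, ‖c h‖ ≤ 1) →
  FC f H q T n c ≤ FC f H 1 (T / q) (n / q) c +
    C * (∑ k ∈ range (H + 1), ‖tc f q T k n‖ + (q : ℝ) / T + 1 / (q : ℝ))

/-- SHC. Shorter windows: the filters of the long windows serve for the short ones. `P` is any
set of filters. -/
def T_SHC : Prop := ∀ H : ℕ, ∃ C : ℝ, 0 < C ∧ ∀ (P : (ℕ → ℂ) → Prop) (f : ℕ → ℂ) (L L' : ℕ)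
  (X : Wn) (a : ℕ → ℕ → ℂ), 1 ≤ L' → L' ≤ L → (∀ n, ‖f n‖ ≤ 1) →
  (∀ c, P c → ∀ h, ‖c h‖ ≤ 1) → (∀ n, P (a n)) →
  ∃ a' : ℕ → ℕ → ℂ, (∀ n, P (a' n)) ∧
    wlg X (fun n => FC f H 1 L' n (a' n)) ≤ wlg X (fun n => FC f H 1 L n (a n)) +
      C * (1 + Real.log L) + C * ((L' : ℝ) / L) * (1 + X.L)

/-- SL1C. Filters for the primes of one level. -/
def T_SL1C : Prop := ∀ (H D W₀ : ℕ) (c : ℝ), 0 < c → ∃ (Ls W₁ : ℕ) (X₀ : ℝ), 1 ≤ Ls ∧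
  ∀ (P : (ℕ → ℂ) → Prop) (X : Wn) (f : ℕ → ℂ) (a : ℕ → ℕ → ℂ), X₀ ≤ X.L → Cl D f →
  (∀ c, P c → ∀ h, ‖c h‖ ≤ 1) → (∀ n, P (a n)) →
  wlg X (fun n => FC f H 1 Ls n (a n)) ≤ c * X.L →
  ∃ (w : ℕ) (a' : ℕ → ℕ → ℕ → ℂ), W₀ ≤ w ∧ w ≤ W₁ ∧ (∀ q n, P (a' q n)) ∧
    ∑ q ∈ EB.QQ w, 1 / (q : ℝ) * wlg X (fun n => FC f H q (2 ^ w) n (a' q n)) ≤
      2 * c * (∑ q ∈ EB.QQ w, 1 / (q : ℝ)) * X.L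

/-- SLOC. Filters for the primes of one octave. -/
def T_SLOC : Prop := ∀ (H D m₀ : ℕ) (c : ℝ), 0 < c → ∃ (Ls W₁ : ℕ) (X₀ : ℝ), 1 ≤ Ls ∧
  ∀ (P : (ℕ → ℂ) → Prop) (X : Wn) (f : ℕ → ℂ) (a : ℕ → ℕ → ℂ), X₀ ≤ X.L → Cl D f →
  (∀ c, P c → ∀ h, ‖c h‖ ≤ 1) → (∀ n, P (a n)) →
  wlg X (fun n => FC f H 1 Ls n (a n)) ≤ c * X.L →
  ∃ (m w : ℕ) (a' : ℕ → ℕ → ℕ → ℂ), m₀ ≤ m ∧ 2 * m ≤ w ∧ w ≤ W₁ ∧ (∀ q n, P (a' q n)) ∧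
    ∑ q ∈ oct m, wlg X (fun n => FC f H q (2 ^ w) n (a' q n)) ≤ 4 * c * (oct m).card * X.L

/-- GHC. Theorem (H0) for the class, windows. -/
def T_GHC : Prop := ∀ (D : ℕ) [NeZero D], ∃ (c : ℝ) (K : ℕ), 0 < c ∧ c ≤ 1 ∧ ∀ R : ℕ,
  ∃ H₀ : ℕ, ∀ (X : Wn) (H : ℕ) (χ : DirichletCharacter ℂ D) (f : ℕ → ℂ), H₀ ≤ H →
  K * Real.log H ≤ X.L → (∀ n, ‖f n‖ ≤ 1) →
  (∀ n, Squarefree n → f n = χ n * ArithmeticFunction.moebius n) →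
  ∀ (b : ℕ → ℕ → ℂ) (β : ℕ → ℕ → ℝ), (∀ n r, ‖b n r‖ ≤ 1) →
    c * X.L < wlg X (fun n => ds f R H n (b n) (β n))

/-- RZC. The theorem for the class: all windows `X`, all complex filters chosen after the
window. -/
def T_RZC : Prop := ∀ (D : ℕ) [NeZero D], ∃ (c : ℝ) (K : ℕ), 0 < c ∧ ∀ H : ℕ, ∃ L₀ : ℕ,
  ∀ (X : Wn) (L : ℕ) (χ : DirichletCharacter ℂ D) (f : ℕ → ℂ) (a : ℕ → ℕ → ℂ), L₀ ≤ L →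
  K * Real.log L ≤ X.L → Cl D f →
  (∀ n, Squarefree n → f n = χ n * ArithmeticFunction.moebius n) →
  (∀ n, 1 ≤ ∑ h ∈ range (H + 1), ‖a n h‖ ^ 2) →
  c * X.L < wlg X (fun n => (∑ m ∈ Icc 1 L, ‖∑ h ∈ range (H + 1),
    a n h * f (n + m + h)‖ ^ 2) / (L : ℝ))

end Pool.Agent.H78.RC
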